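import Mathlib

set_option autoImplicit false

namespace Pool.Agent.Results.MP_e8676d_al.Degrees

open Equiv Filter Topology Function

/-- the infinite word `x w` -/
def cons {X : Type} (x : X) (w : ℕ → X) : ℕ → X := fun k => Nat.casesOn k x w

/-- `L`, acting on infinite words, is self-similar -/
def SelfSimilar {X : Type} (L : Subgroup (Perm (ℕ → X))) : Prop :=
  ∀ g ∈ L, ∀ x : X, ∃ h ∈ L, ∃ y : X, ∀ w, g (cons x w) = cons y (h w)

/-- the ball of radius `n` about `ξ` in the Schreier graph of the orbit of `ξ` -/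
def ball {Y : Type} (S : Finset (Perm Y)) (ξ : Y) (n : ℕ) : Set Y :=
  {η | ∃ l : List (Perm Y), l.length ≤ n ∧ (∀ s ∈ l, s ∈ S ∨ s⁻¹ ∈ S) ∧ η = l.prod ξ}

section general
variable {Y : Type} {S : Finset (Perm Y)}

lemma ball_self (ξ : Y) (n : ℕ) : ξ ∈ ball S ξ n := ⟨[], by simp, by simp, rfl⟩

lemma ball_mono {ξ : Y} {m n : ℕ} (h : m ≤ n) : ball S ξ m ⊆ ball S ξ n :=
  fun _ ⟨l, a, b, c⟩ => ⟨l, a.trans h, b, c⟩

lemma ball_trans {ξ η ζ : Y} {m n : ℕ} (h : η ∈ ball S ξ m) (h' : ζ ∈ ball S η n) :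
    ζ ∈ ball S ξ (m + n) := by
  obtain ⟨l, a, b, rfl⟩ := h
  obtain ⟨l', a', b', rfl⟩ := h'
  refine ⟨l' ++ l, by simp; omega, fun s hs => ?_, by simp⟩
  rcases List.mem_append.1 hs with h | h
  exacts [b' s h, b s h]

lemma ball_pow {s : Perm Y} (hs : s ∈ S) (ξ : Y) (j : ℕ) : (s ^ j) ξ ∈ ball S ξ j :=
  ⟨List.replicate j s, by simp, fun t ht => Or.inl (by rw [List.eq_of_mem_replicate ht]; exact hs),
    by simp⟩

lemma ball_ind {ξ : Y} (P : ℕ → Y → Prop) (h0 : ∀ n, P n ξ)
    (h1 : ∀ n η s, (s ∈ S ∨ s⁻¹ ∈ S) → P n η → P (n + 1) (s η)) {n : ℕ} {η : Y}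
    (h : η ∈ ball S ξ n) : P n η := by
  obtain ⟨l, a, b, rfl⟩ := h
  induction l generalizing n with
  | nil => exact h0 n
  | cons s l ih =>
    obtain ⟨m, rfl⟩ : ∃ m, n = m + 1 := ⟨n - 1, by simp at a; omega⟩
    exact h1 m _ s (b s (by simp)) (ih (by simpa using a) fun t ht => b t (by simp [ht]))

lemma ball_finite (ξ : Y) (n : ℕ) : (ball S ξ n).Finite := by
  classical
  refine ((List.finite_length_le (↥(S ∪ S.image (·⁻¹))) n).image
    fun l => (l.map Subtype.val).prod ξ).subset ?_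
  rintro _ ⟨l, a, b, rfl⟩
  have hb : ∀ s ∈ l, s ∈ S ∪ S.image (·⁻¹) := fun s hs => by
    rcases b s hs with h | h
    · simp [h]
    · exact Finset.mem_union_right _ (Finset.mem_image.2 ⟨_, h, by simp⟩)
  exact ⟨l.pmap Subtype.mk hb, by simpa using a, by simp [List.map_pmap]⟩

lemma ball_card (ξ : Y) (h : {η | ∃ g ∈ Subgroup.closure (S : Set (Perm Y)), g ξ = η}.Infinite)
    (n : ℕ) : n ≤ (ball S ξ n).ncard := by
  induction n with
  | zero => omega
  | succ n ih =>
    refine Nat.succ_le_of_lt (ih.trans_lt (Set.ncard_lt_ncard ?_ (ball_finite _ _)))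
    refine ⟨ball_mono n.le_succ, fun hc => h ((ball_finite (S := S) ξ n).subset ?_)⟩
    rintro _ ⟨g, hg, rfl⟩
    have st : ∀ s, (s ∈ S ∨ s⁻¹ ∈ S) → ∀ η ∈ ball S ξ n, s η ∈ ball S ξ n := fun s hs η hη =>
      hc (ball_trans hη ⟨[s], le_rfl, by simpa using hs, by simp⟩)
    induction hg using Subgroup.closure_induction_left with
    | one => exact ball_self _ _
    | mul_left s hs g _ ih => exact st s (Or.inl hs) _ ih
    | inv_mul_cancel s hs g _ ih => exact st s⁻¹ (Or.inr (by simpa using hs)) _ ih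

lemma lim (f : ℕ → ℝ) (α c C : ℝ) (hc : 0 < c)
    (h : ∀ᶠ n : ℕ in atTop, c * (n : ℝ) ^ α ≤ f n ∧ f n ≤ C * (n : ℝ) ^ α) :
    Tendsto (fun n : ℕ => Real.log (f n) / Real.log n) atTop (𝓝 α) := by
  have hl : Tendsto (fun n : ℕ => Real.log n) atTop atTop :=
    Real.tendsto_log_atTop.comp tendsto_natCast_atTop_atTop
  have t : ∀ c : ℝ, Tendsto (fun n : ℕ => Real.log c / Real.log n + α) atTop (𝓝 α) := fun c => by
    simpa using (tendsto_const_nhds.div_atTop hl).add_const α
  have e : ∀ (c : ℝ) (n : ℕ), 0 < c → 2 ≤ n →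
      Real.log c / Real.log n + α = Real.log (c * (n : ℝ) ^ α) / Real.log n := by
    intro c n hc hn
    have h1 : (1 : ℝ) < n := by exact_mod_cast hn
    have h2 := Real.log_pos h1
    rw [Real.log_mul hc.ne' (by positivity), Real.log_rpow (by positivity)]
    field_simp
  refine tendsto_of_tendsto_of_tendsto_of_le_of_le' (t c) (t C) ?_ ?_
  · filter_upwards [h, eventually_ge_atTop 2] with n hn h2
    rw [e c n hc h2]
    have : (0 : ℝ) < n := by positivity
    exact div_le_div_of_nonneg_right (Real.log_le_log (by positivity) hn.1) (Real.log_natCast_nonneg n)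
  · filter_upwards [h, eventually_ge_atTop 2] with n hn h2
    have : (0 : ℝ) < n := by positivity
    have h3 : 0 < f n := lt_of_lt_of_le (by positivity) hn.1
    rw [e C n ((mul_pos_iff_of_pos_right (by positivity)).1 (h3.trans_le hn.2)) h2]
    exact div_le_div_of_nonneg_right (Real.log_le_log h3 hn.2) (Real.log_natCast_nonneg n)

end general

abbrev X (D : ℕ) := Fin (D + 2) × Bool

variable {D : ℕ}

def up (k : ℕ) (σ : Perm (X D)) (w : ℕ → X D) : ℕ → X D := update w k (σ (w k))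

lemma up_up (k : ℕ) (σ τ : Perm (X D)) (w : ℕ → X D) : up k σ (up k τ w) = up k (σ * τ) w := by
  simp [up]

def A (σ : Perm (X D)) : Perm (ℕ → X D) :=
  ⟨up 0 σ, up 0 σ⁻¹, fun w => by rw [up_up]; simp [up], fun w => by rw [up_up]; simp [up]⟩

open Classical in
noncomputable def bf (σ : Perm (X D)) (w : ℕ → X D) : ℕ → X D :=
  if h : ∃ k, (w k).1 ≠ 0 then up (Nat.find h + 1) σ w else w

lemma bf_eq (σ : Perm (X D)) (w : ℕ → X D) (k : ℕ) (h1 : (w k).1 ≠ 0) (h2 : ∀ j < k, (w j).1 = 0) :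
    bf σ w = up (k + 1) σ w := by
  have h : ∃ k, (w k).1 ≠ 0 := ⟨k, h1⟩
  rw [bf, dif_pos h, (Nat.find_eq_iff h).2 ⟨h1, fun j hj => not_not.2 (h2 j hj)⟩]

lemma bf_cases (w : ℕ → X D) : (∀ σ, bf σ w = w) ∧ (∀ k, (w k).1 = 0) ∨
    ∃ k, (w k).1 ≠ 0 ∧ ∀ j < k, (w j).1 = 0 := by
  classical
  by_cases h : ∃ k, (w k).1 ≠ 0
  · exact Or.inr ⟨Nat.find h, Nat.find_spec h, fun j hj => not_not.1 (Nat.find_min h hj)⟩
  · exact Or.inl ⟨fun σ => dif_neg h, fun k => not_not.1 fun hk => h ⟨k, hk⟩⟩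

lemma bf_bf (σ τ : Perm (X D)) (w : ℕ → X D) : bf σ (bf τ w) = bf (σ * τ) w := by
  rcases bf_cases w with h | ⟨k, h1, h2⟩
  · simp [h.1]
  · rw [bf_eq τ w k h1 h2, bf_eq _ w k h1 h2, bf_eq σ _ k, up_up]
    · simpa [up] using h1
    · intro j hj; rw [up, update_of_ne (by omega)]; exact h2 j hj

lemma bf_one (w : ℕ → X D) : bf 1 w = w := by
  unfold bf; split_ifs <;> simp [up]

noncomputable def B (σ : Perm (X D)) : Perm (ℕ → X D) :=
  ⟨bf σ, bf σ⁻¹, fun w => by simp [bf_bf, bf_one], fun w => by simp [bf_bf, bf_one]⟩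

lemma A_cons (σ : Perm (X D)) (x : X D) (w : ℕ → X D) : A σ (cons x w) = cons (σ x) w :=
  funext fun k => by cases k <;> simp [A, up, cons]

lemma up_cons (σ : Perm (X D)) (k : ℕ) (x : X D) (w : ℕ → X D) :
    up (k + 1) σ (cons x w) = cons x (up k σ w) :=
  funext fun j => by cases j <;> simp [up, cons, update_apply]

lemma B_cons (σ : Perm (X D)) (x : X D) (w : ℕ → X D) :
    B σ (cons x w) = cons x ((if x.1 = 0 then B σ else A σ) w) := by
  split_ifs with h
  · rcases bf_cases w with h1 | ⟨k, h1, h2⟩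
    · rcases bf_cases (cons x w) with h2 | ⟨k, h2, -⟩
      · exact (h2.1 σ).trans (by simp [B, h1.1])
      · cases k with
        | zero => exact absurd h h2
        | succ k => exact absurd (h1.2 k) h2
    · show bf σ _ = cons x (bf σ w)
      rw [bf_eq σ w k h1 h2, bf_eq σ _ (k + 1) h1, up_cons]
      intro j hj
      cases j with
      | zero => exact h
      | succ j => exact h2 j (by omega)
  · show bf σ _ = cons x (up 0 σ w)
    rw [bf_eq σ _ 0 h (by simp), up_cons]

def ρ (D : ℕ) : Perm (X D) :=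
  prodCongrLeft fun b => if b then Equiv.addRight 1 else swap 0 1

open Classical in
noncomputable def gens (D : ℕ) : Finset (Perm (ℕ → X D)) := {A (ρ D), B (ρ D)}

lemma gens_cases {s : Perm (ℕ → X D)} (h : s ∈ gens D ∨ s⁻¹ ∈ gens D) :
    ∃ σ, (σ = ρ D ∨ σ = (ρ D)⁻¹) ∧ (s = A σ ∨ s = B σ) := by
  simp only [gens, Finset.mem_insert, Finset.mem_singleton, inv_eq_iff_eq_inv] at h
  rcases h with (rfl | rfl) | rfl | rfl
  exacts [⟨_, Or.inl rfl, Or.inl rfl⟩, ⟨_, Or.inl rfl, Or.inr rfl⟩, ⟨_, Or.inr rfl, Or.inl rfl⟩,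
    ⟨_, Or.inr rfl, Or.inr rfl⟩]

lemma selfsim (D : ℕ) : SelfSimilar (Subgroup.closure (gens D : Set (Perm (ℕ → X D)))) := by
  set L := Subgroup.closure (gens D : Set (Perm (ℕ → X D)))
  have a : A (ρ D) ∈ L := Subgroup.subset_closure (by simp [gens])
  have b : B (ρ D) ∈ L := Subgroup.subset_closure (by simp [gens])
  have st : ∀ s, (s ∈ gens D ∨ s⁻¹ ∈ gens D) →
      ∀ x, ∃ h ∈ L, ∃ y, ∀ w, s (cons x w) = cons y (h w) := by
    intro s hs x
    obtain ⟨σ, h1, rfl | rfl⟩ := gens_cases hs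
    · exact ⟨1, L.one_mem, _, fun w => A_cons σ x w⟩
    · refine ⟨_, ?_, _, fun w => B_cons σ x w⟩
      rcases h1 with rfl | rfl <;> split_ifs
      exacts [b, a, L.inv_mem b, L.inv_mem a]
  have mul : ∀ s g : Perm (ℕ → X D), (s ∈ gens D ∨ s⁻¹ ∈ gens D) →
      (∀ x, ∃ h ∈ L, ∃ y, ∀ w, g (cons x w) = cons y (h w)) →
      ∀ x, ∃ h ∈ L, ∃ y, ∀ w, (s * g) (cons x w) = cons y (h w) := by
    intro s g hs hg x
    obtain ⟨h, h1, y, h2⟩ := hg x
    obtain ⟨h', h3, z, h4⟩ := st s hs y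
    exact ⟨h' * h, L.mul_mem h3 h1, z, fun w => by simp [h2, h4]⟩
  intro g hg
  induction hg using Subgroup.closure_induction_left with
  | one => exact fun x => ⟨1, L.one_mem, x, fun w => rfl⟩
  | mul_left s hs g _ ih => exact mul s g (Or.inl hs) ih
  | inv_mul_cancel s hs g _ ih => exact mul _ g (Or.inr (by simpa using hs)) ih

/-- allowed letters of a given type -/
def T (D : ℕ) (t : Bool) : Finset (X D) :=
  if t then Finset.univ.image fun x => (x, true) else {(0, false), (1, false)}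

lemma T_card (t : Bool) : (T D t).card = if t then D + 2 else 2 := by
  cases t
  · simp [T]
  · simp [T, Finset.card_image_of_injective _ (Prod.mk_left_injective true)]

lemma T_rho {t : Bool} {x : X D} {σ : Perm (X D)} (hσ : σ = ρ D ∨ σ = (ρ D)⁻¹) (h : x ∈ T D t) :
    σ x ∈ T D t := by
  have k : ∀ x ∈ T D t, ρ D x ∈ T D t := by
    rintro ⟨x, b⟩ h
    cases t
    · simp only [T, Bool.false_eq_true, if_false, Finset.mem_insert, Finset.mem_singleton] at h ⊢
      rcases h with h | h <;> simp [h, ρ]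
    · simp only [T, if_true, Finset.mem_image, Finset.mem_univ, true_and] at h ⊢
      obtain ⟨y, h⟩ := h
      exact ⟨y + 1, by simp [← h, ρ]⟩
  rcases hσ with rfl | rfl
  · exact k x h
  · obtain ⟨y, hy, e⟩ := Finset.surjOn_of_injOn_of_card_le (ρ D) k (ρ D).injective.injOn le_rfl h
    rw [← e]; simpa using hy

lemma T_reach {t : Bool} {x y : X D} (hx : x ∈ T D t) (hy : y ∈ T D t) :
    ∃ j ≤ D + 2, (ρ D ^ j) x = y := by
  cases t
  · simp only [T, Bool.false_eq_true, if_false, Finset.mem_insert, Finset.mem_singleton] at hx hy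
    rcases hx with rfl | rfl <;> rcases hy with rfl | rfl
    exacts [⟨0, by omega, rfl⟩, ⟨1, by omega, by simp [ρ]⟩, ⟨1, by omega, by simp [ρ]⟩,
      ⟨0, by omega, rfl⟩]
  · simp only [T, if_true, Finset.mem_image, Finset.mem_univ, true_and] at hx hy
    obtain ⟨x, rfl⟩ := hx
    obtain ⟨y, rfl⟩ := hy
    have : ∀ j : ℕ, (ρ D ^ j) (x, true) = (x + Fin.ofNat (D + 2) j, true) := by
      intro j
      induction j with
      | zero => simp
      | succ j ih =>
        rw [pow_succ', Perm.mul_apply, ih]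
        simp only [ρ, prodCongrLeft_apply, if_true, coe_addRight, add_assoc]
        congr 2
        ext; simp [Fin.val_add]
    exact ⟨(y - x).val, (y - x).2.le, by rw [this]; simp⟩

lemma A_pow (σ : Perm (X D)) (j : ℕ) (w : ℕ → X D) : (A σ ^ j) w = up 0 (σ ^ j) w := by
  induction j with
  | zero => simp [up]
  | succ j ih => rw [pow_succ', Perm.mul_apply, ih, pow_succ', ← up_up]; rfl

lemma B_pow (σ : Perm (X D)) (j : ℕ) (w : ℕ → X D) : (B σ ^ j) w = bf (σ ^ j) w := by
  induction j with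
  | zero => simp [bf_one]
  | succ j ih => rw [pow_succ', Perm.mul_apply, ih, pow_succ', ← bf_bf]; rfl

lemma reach (t : ℕ → Bool) (n : ℕ) : ∀ ζ η : ℕ → X D, (∀ i, ζ i ∈ T D (t i)) →
    (∀ i, η i ∈ T D (t i)) → (∀ i, n + 1 ≤ i → ζ i = η i) →
    η ∈ ball (gens D) ζ ((D + 2) * (2 ^ (n + 1) - 1)) := by
  induction n with
  | zero =>
    intro ζ η h1 h2 h3
    obtain ⟨j, hj, e⟩ := T_reach (h1 0) (h2 0)
    have := ball_pow (S := gens D) (s := A (ρ D)) (by simp [gens]) ζ j
    refine ball_mono (by omega) (?_ : η ∈ ball _ _ j)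
    convert this
    rw [A_pow]
    funext i
    cases i with
    | zero => simp [up, e]
    | succ i => simp [up, h3]
  | succ n ih =>
    intro ζ η h1 h2 h3
    let μ : ℕ → X D := fun i => if i < n then (0, t i) else if i = n then (1, t i) else ζ i
    have hμ : ∀ i, μ i ∈ T D (t i) := fun i => by
      simp only [μ]; split_ifs
      · cases t i <;> simp [T]
      · cases t i <;> simp [T]
      · exact h1 i
    obtain ⟨j, hj, e⟩ := T_reach (hμ (n + 1)) (h2 (n + 1))
    have a1 := ih ζ μ h1 hμ fun i hi => by simp only [μ]; rw [if_neg (by omega), if_neg (by omega)]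
    have a2 := ball_pow (S := gens D) (s := B (ρ D)) (by simp [gens]) μ j
    rw [B_pow, bf_eq _ _ n (by simp [μ]) (fun j hj => by simp [μ, hj]), up, e] at a2
    have a3 := ih (update μ (n + 1) (η (n + 1))) η (fun i => by
      by_cases h : i = n + 1
      · subst h; simpa using h2 _
      · simpa [h] using hμ i) h2 (fun i hi => by
      by_cases h : i = n + 1
      · subst h; simp
      · rw [update_of_ne h, ← h3 i (by omega)]
        simp only [μ]; rw [if_neg (by omega), if_neg (by omega)])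
    refine ball_mono ?_ (ball_trans (ball_trans a1 a2) a3)
    obtain ⟨m, hm⟩ : ∃ m, 2 ^ (n + 1) = m + 1 := ⟨_, (Nat.sub_add_cancel Nat.one_le_two_pow).symm⟩
    rw [pow_succ 2 (n + 1), hm, show (m + 1) * 2 - 1 = 2 * m + 1 by omega, Nat.add_sub_cancel]
    nlinarith

def gray (w : ℕ → X D) : ℕ → ℤ
  | 0 => 0
  | n + 1 => if (w n).1 = 0 then gray w n else 2 ^ (n + 1) - 1 - gray w n

lemma gray_bd (w : ℕ → X D) (n : ℕ) : 0 ≤ gray w n ∧ gray w n ≤ 2 ^ n - 1 := by
  induction n with
  | zero => simp [gray]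
  | succ n ih => simp only [gray, pow_succ]; split_ifs <;> omega

lemma gray_up (σ : Perm (X D)) (w : ℕ → X D) (k : ℕ) (h : gray w k = 2 ^ k - 1) (n : ℕ) :
    |gray (up k σ w) n - gray w n| ≤ 1 ∧ (n ≤ k → gray (up k σ w) n = gray w n) := by
  induction n with
  | zero => simp [gray]
  | succ n ih =>
    by_cases hn : n = k
    · subst hn
      refine ⟨?_, by omega⟩
      simp only [gray, ih.2 le_rfl, h, pow_succ, abs_le]
      split_ifs <;> omega
    · have : up k σ w n = w n := update_of_ne hn _ _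
      simp only [gray, this, abs_le] at ih ⊢
      split_ifs <;> omega

lemma gray_step {s : Perm (ℕ → X D)} (hs : s ∈ gens D ∨ s⁻¹ ∈ gens D) (w : ℕ → X D) :
    s w = w ∨ ∃ k σ, (σ = ρ D ∨ σ = (ρ D)⁻¹) ∧ s w = up k σ w ∧ gray w k = 2 ^ k - 1 := by
  obtain ⟨σ, h1, rfl | rfl⟩ := gens_cases hs
  · exact Or.inr ⟨0, σ, h1, rfl, by simp [gray]⟩
  · rcases bf_cases w with h | ⟨k, h2, h3⟩
    · exact Or.inl (h.1 σ)
    · refine Or.inr ⟨k + 1, σ, h1, bf_eq σ w k h2 h3, ?_⟩
      have : ∀ j ≤ k, gray w j = 0 := fun j hj => by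
        induction j with
        | zero => rfl
        | succ j ih => simp [gray, h3 j hj, ih (by omega)]
      simp [gray, h2, this k le_rfl]

def V (D : ℕ) (t : ℕ → Bool) (n : ℕ) : Set (ℕ → X D) :=
  {η | (∀ i, η i ∈ T D (t i)) ∧ ∀ i, n ≤ i → η i = (0, t i)}

lemma T_zero (t : Bool) : ((0, t) : X D) ∈ T D t := by cases t <;> simp [T]

lemma ball_sub (t : ℕ → Bool) (r n : ℕ) (h : r < 2 ^ n) :
    ball (gens D) (fun i => (0, t i)) r ⊆ V D t n := by
  intro η hη
  have := ball_ind (fun r η => (∀ i, η i ∈ T D (t i)) ∧ ∀ m, gray η m ≤ r)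
    (fun r => ⟨fun i => T_zero _, fun m => by
      induction m with
      | zero => simp [gray]
      | succ m ih => simpa [gray] using ih⟩)
    (fun r η s hs ⟨h1, h2⟩ => by
      rcases gray_step hs η with e | ⟨k, σ, h3, e, h4⟩
      · rw [e]; exact ⟨h1, fun m => by have := h2 m; omega⟩
      · rw [e]
        refine ⟨fun i => ?_, fun m => ?_⟩
        · by_cases h : i = k
          · subst h; simpa [up] using T_rho h3 (h1 i)
          · simpa [up, h] using h1 i
        · have := abs_le.1 (gray_up σ η k h4 m).1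
          have := h2 m
          omega) hη
  refine ⟨this.1, fun i hi => ?_⟩
  have h1 := this.2 (i + 1)
  have h2 := gray_bd η i
  have h3 : (r : ℤ) < 2 ^ i := by
    exact_mod_cast h.trans_le (Nat.pow_le_pow_right (by norm_num) hi)
  have h4 : (η i).1 = 0 := by
    by_contra hc
    simp only [gray, hc, if_false, pow_succ] at h1
    omega
  refine Prod.ext h4 ?_
  have h5 := this.1 i
  generalize η i = x at *
  obtain ⟨x, b⟩ := x
  cases h6 : t i <;> cases b <;> simp_all [T]

lemma V_card (t : ℕ → Bool) (n : ℕ) :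
    (V D t n).ncard = ∏ i ∈ Finset.range n, if t i then D + 2 else 2 := by
  have : V D t n = (fun (f : Fin n → X D) i => if h : i < n then f ⟨i, h⟩ else (0, t i)) ''
      (Fintype.piFinset fun i : Fin n => T D (t i)) := by
    ext η
    constructor
    · rintro ⟨h1, h2⟩
      refine ⟨fun i => η i, by simpa using fun i => h1 _, funext fun i => ?_⟩
      beta_reduce
      split_ifs with h
      exacts [rfl, (h2 i (by omega)).symm]
    · rintro ⟨f, hf, rfl⟩
      refine ⟨fun i => ?_, fun i hi => dif_neg (by omega)⟩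
      beta_reduce
      split_ifs with h
      exacts [Fintype.mem_piFinset.1 hf ⟨i, h⟩, T_zero _]
  rw [this, Set.ncard_image_of_injective _ (fun f g h => funext fun i => by
    simpa using congrFun h i), Set.ncard_coe_finset, Fintype.card_piFinset]
  simp only [T_card]
  exact Fin.prod_univ_eq_prod_range (fun i => if t i then D + 2 else 2) n

lemma types (γ : ℝ) (h2 : 2 ≤ γ) (hD : γ ≤ (D + 2 : ℕ)) : ∃ t : ℕ → Bool, ∀ n,
    γ ^ n ≤ γ * (∏ i ∈ Finset.range n, if t i then D + 2 else 2 : ℕ) ∧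
    ((∏ i ∈ Finset.range n, if t i then D + 2 else 2 : ℕ) : ℝ) ≤ (D + 2 : ℕ) * γ ^ n := by
  classical
  let P : ℕ → ℕ := fun n =>
    Nat.rec 1 (fun n (p : ℕ) => p * if ((p : ℕ) : ℝ) < γ ^ n then D + 2 else 2) n
  have hP : ∀ n : ℕ, P (n + 1) = P n * (if LT.lt (Nat.cast (P n) : ℝ) (γ ^ n) then D + 2 else 2 : ℕ) :=
    fun n => rfl
  refine ⟨fun n => decide (LT.lt (Nat.cast (P n) : ℝ) (γ ^ n)), fun n => ?_⟩
  have e : ∀ n, (∏ i ∈ Finset.range n,
      if decide (LT.lt (Nat.cast (P i) : ℝ) (γ ^ i)) then D + 2 else 2) = P n := by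
    intro n
    induction n with
    | zero => rfl
    | succ n ih => rw [Finset.prod_range_succ, ih, hP]; simp
  rw [e]
  generalize hE : ((D + 2 : ℕ) : ℝ) = E at hD
  induction n with
  | zero => simp only [P, Nat.rec_zero, pow_zero, Nat.cast_one]; constructor <;> linarith
  | succ n ih =>
    have h0 : 0 < γ ^ n := by positivity
    have h1 : (0 : ℝ) ≤ (Nat.cast (P n) : ℝ) := by positivity
    have h3 : 0 < E * γ ^ n := mul_pos (by linarith) h0
    rw [hP, pow_succ]
    split_ifs with h <;> rw [Nat.cast_mul]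
    · rw [hE]
      constructor
      · nlinarith [mul_nonneg (mul_nonneg h1 (sub_nonneg.2 hD)) (by linarith : 0 ≤ γ),
          mul_le_mul_of_nonneg_left ih.1 (by linarith : 0 ≤ γ)]
      · nlinarith [mul_nonneg h1 (sub_nonneg.2 hD)]
    · push_cast; constructor <;> nlinarith [mul_le_mul ih.2 h2 zero_le_two h3.le]

theorem result (α : ℝ) : (∃ (X : Type) (_ : Fintype X) (S : Finset (Perm (ℕ → X))) (ξ : ℕ → X),
    2 ≤ Fintype.card X ∧ SelfSimilar (Subgroup.closure (S : Set (Perm (ℕ → X)))) ∧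
    {η | ∃ g ∈ Subgroup.closure (S : Set (Perm (ℕ → X))), g ξ = η}.Infinite ∧
    Tendsto (fun n : ℕ => Real.log ((ball S ξ n).ncard : ℝ) / Real.log n) atTop (𝓝 α)) ↔ 1 ≤ α := by
  constructor
  · rintro ⟨X, -, S, ξ, -, -, h1, h2⟩
    refine ge_of_tendsto h2 ?_
    filter_upwards [eventually_ge_atTop 2] with n hn
    have h3 : (1 : ℝ) < n := by exact_mod_cast hn
    rw [le_div_iff₀ (Real.log_pos h3), one_mul]
    exact Real.log_le_log (by positivity) (by exact_mod_cast ball_card ξ h1 n)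
  intro hα
  set γ : ℝ := 2 ^ α with hγ
  have h2 : 2 ≤ γ := by simpa using Real.rpow_le_rpow_of_exponent_le one_le_two hα
  obtain ⟨D, hD⟩ := exists_nat_ge γ
  obtain ⟨t, ht⟩ := types (D := D) γ h2 (by push_cast; linarith)
  have pw : ∀ n : ℕ, γ ^ n = ((2 ^ n : ℕ) : ℝ) ^ α := fun n => by
    rw [hγ, ← Real.rpow_natCast, ← Real.rpow_mul zero_le_two, mul_comm,
      Real.rpow_mul zero_le_two, Real.rpow_natCast]; simp
  have sub : ∀ n, V D t n ⊆ ball (gens D) (fun i => (0, t i)) ((D + 2) * 2 ^ (n + 1)) :=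
    fun n η h => ball_mono (Nat.mul_le_mul_left _ (Nat.sub_le _ _))
      (reach t n _ η (fun i => T_zero _) h.1 fun i hi => (h.2 i (by omega)).symm)
  refine ⟨X D, inferInstance, gens D, fun i => (0, t i), by simp, selfsim D, ?_, ?_⟩
  · refine Set.infinite_of_injective_forall_mem
      (f := fun n => update (fun i => ((0, t i) : X D)) n (1, t n)) (fun m n h => ?_) fun n => ?_
    · by_contra hc
      simpa [update_of_ne hc] using congrFun h m
    · obtain ⟨l, -, h1, h2⟩ := sub (n + 1) (a := update (fun i => ((0, t i) : X D)) n (1, t n))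
        ⟨fun i => by
          by_cases h : i = n
          · subst h; cases h : t i <;> simp [T]
          · simpa [h] using T_zero _, fun i hi => update_of_ne (by omega) _ _⟩
      refine ⟨l.prod, Subgroup.list_prod_mem _ fun s hs => ?_, h2.symm⟩
      rcases h1 s hs with h | h
      · exact Subgroup.subset_closure h
      · exact (Subgroup.inv_mem_iff _).1 (Subgroup.subset_closure h)
  · refine lim _ α (γ⁻¹ * ((8 * (D + 2) : ℝ) ^ α)⁻¹) ((D + 2 : ℕ) * γ) (by positivity) ?_
    filter_upwards [eventually_ge_atTop (2 * (D + 2))] with r hr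
    constructor
    · set m := Nat.log 2 (r / (2 * (D + 2)))
      have q1 : 1 ≤ r / (2 * (D + 2)) := (Nat.le_div_iff_mul_le (by omega)).2 (by omega)
      have q2 : 2 ^ m ≤ r / (2 * (D + 2)) := Nat.pow_log_le_self 2 (by omega)
      have q3 : r / (2 * (D + 2)) < 2 ^ (m + 1) := Nat.lt_pow_succ_log_self (by norm_num) _
      rw [Nat.le_div_iff_mul_le (by omega)] at q2
      rw [Nat.div_lt_iff_lt_mul (by omega), pow_succ] at q3
      have q4 : (V D t m).ncard ≤ (ball (gens D) (fun i => (0, t i)) r).ncard :=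
        Set.ncard_le_ncard ((sub m).trans (ball_mono (by rw [pow_succ]; nlinarith)))
          (ball_finite _ _)
      rw [V_card] at q4
      have q5 : (r : ℝ) ≤ 8 * (D + 2) * (2 ^ m : ℕ) := by
        exact_mod_cast (by nlinarith : r ≤ 8 * (D + 2) * 2 ^ m)
      have q6 : (r : ℝ) ^ α ≤ (8 * (D + 2) : ℝ) ^ α * γ ^ m := by
        rw [pw, ← Real.mul_rpow (by positivity) (by positivity)]
        exact Real.rpow_le_rpow (by positivity) q5 (by linarith)
      rw [mul_assoc, inv_mul_le_iff₀ (by positivity), inv_mul_le_iff₀ (by positivity)]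
      refine q6.trans (mul_le_mul_of_nonneg_left ((ht m).1.trans ?_) (by positivity))
      exact mul_le_mul_of_nonneg_left (by exact_mod_cast q4) (by positivity)
    · set m := Nat.log 2 r
      have q2 : 2 ^ m ≤ r := Nat.pow_log_le_self 2 (by omega)
      have q3 : r < 2 ^ (m + 1) := Nat.lt_pow_succ_log_self (by norm_num) _
      have q4 := Set.ncard_le_ncard (ball_sub (D := D) t r _ q3)
        ((ball_finite _ _).subset (sub _))
      rw [V_card] at q4
      have q6 : γ ^ m ≤ (r : ℝ) ^ α := by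
        rw [pw]; exact Real.rpow_le_rpow (by positivity) (by exact_mod_cast q2) (by linarith)
      refine le_trans (by exact_mod_cast q4) ((ht (m + 1)).2.trans ?_)
      rw [pow_succ', mul_assoc]
      gcongr

end Pool.Agent.Results.MP_e8676d_al.Degrees
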